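import Pool.Agent.H164R4.Core

set_option autoImplicit false

/-!
MP_7794fd_co.  A parity theorem for extensions of circuits.

Let G be a finite simple graph and C a circuit of G all of whose vertices have degree 3 in G.
The attachments of a component Q of G - V(C) are the vertices of C with a neighbour in Q. If

* at most one component of G - V(C) has an odd number of attachments (for instance: G - V(C) is
  connected, of any size), or
* C has an edge xy such that every component of G - V(C) with an odd number of attachments contains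
  a neighbour of x or of y,

then C has an extension: a circuit D with V(C) contained in V(D) that has an edge outside C.
-/

namespace Pool.Agent.Results.MP_7794fd_co.ExtensionParity

theorem exists_edge {V : Type} [DecidableEq V] (G : SimpleGraph V) {a : V} (c : G.Walk a a)
    (hc : c.IsCycle) (x : V) (hx : x ∈ c.support) : ∃ y, s(x, y) ∈ c.edges := by
  have h1 : (c.rotate x hx).IsCycle := hc.rotate hx
  have h2 : ∀ e, e ∈ (c.rotate x hx).edges → e ∈ c.edges := fun e => (c.rotate_edges x hx).mem_iff.1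
  cases h3 : c.rotate x hx with
  | nil =>
    rw [h3] at h1
    exact absurd h1 (by simp)
  | cons h p =>
    rename_i b
    refine ⟨b, h2 _ ?_⟩
    rw [h3, SimpleGraph.Walk.edges_cons, List.mem_cons]
    exact Or.inl rfl

/-- The extension theorem. -/
theorem result {V : Type} [Fintype V] (G : SimpleGraph V) {a : V} (c : G.Walk a a)
    (hc : c.IsCycle) (h3 : ∀ u ∈ c.support, Nat.card {v // G.Adj u v} = 3)
    (h : (∀ Q Q' : (G.induce {v | v ∉ c.support}).ConnectedComponent,
        Odd (Nat.card {u // u ∈ c.support ∧ ∃ v ∈ Q.supp, G.Adj u v}) →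
        Odd (Nat.card {u // u ∈ c.support ∧ ∃ v ∈ Q'.supp, G.Adj u v}) → Q = Q') ∨
      (∃ x y : V, s(x, y) ∈ c.edges ∧
        ∀ Q : (G.induce {v | v ∉ c.support}).ConnectedComponent,
          Odd (Nat.card {u // u ∈ c.support ∧ ∃ v ∈ Q.supp, G.Adj u v}) →
            (∃ v ∈ Q.supp, G.Adj x v) ∨ (∃ v ∈ Q.supp, G.Adj y v))) :
    ∃ (b : V) (d : G.Walk b b), d.IsCycle ∧ (∀ v ∈ c.support, v ∈ d.support) ∧
      ∃ e ∈ d.edges, e ∉ c.edges := by
  classical
  have h1 : ∀ x y : V, s(x, y) ∈ c.edges →
      (∀ Q : (G.induce {v | v ∉ c.support}).ConnectedComponent,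
        Odd (Nat.card {u // u ∈ c.support ∧ ∃ v ∈ Q.supp, G.Adj u v}) →
          (∃ v ∈ Q.supp, G.Adj x v) ∨ (∃ v ∈ Q.supp, G.Adj y v)) →
      ∃ (b : V) (d : G.Walk b b), d.IsCycle ∧ (∀ v ∈ c.support, v ∈ d.support) ∧
        ∃ e ∈ d.edges, e ∉ c.edges := by
    intro x y hxy hodd
    obtain ⟨b, d, hd1, hd2, -, hd3⟩ :=
      Pool.Agent.H164R4.extension G c hc x y hxy (fun u hu _ _ => h3 u hu) hodd
    exact ⟨b, d, hd1, hd2, hd3⟩
  rcases h with huniq | ⟨x, y, hxy, hodd⟩
  · by_cases hex : ∃ Q : (G.induce {v | v ∉ c.support}).ConnectedComponent,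
        Odd (Nat.card {u // u ∈ c.support ∧ ∃ v ∈ Q.supp, G.Adj u v})
    · obtain ⟨Q, hQ⟩ := hex
      have hne : Nonempty {u // u ∈ c.support ∧ ∃ v ∈ Q.supp, G.Adj u v} := by
        by_contra hcon
        rw [not_nonempty_iff] at hcon
        rw [Nat.card_of_isEmpty] at hQ
        exact absurd hQ (by decide)
      obtain ⟨⟨x, hx, hxQ⟩⟩ := hne
      obtain ⟨y, hy⟩ := exists_edge G c hc x hx
      exact h1 x y hy (by
        intro Q' hQ'
        left
        rw [huniq Q' Q hQ' hQ]
        exact hxQ)
    · obtain ⟨y, hy⟩ := exists_edge G c hc a c.start_mem_support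
      exact h1 a y hy (fun Q hQ => absurd ⟨Q, hQ⟩ hex)
  · exact h1 x y hxy hodd

end Pool.Agent.Results.MP_7794fd_co.ExtensionParity
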